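import Pool.Agent.Q282.GP.Kun

/-!
# The formula of Künneth for the eigenvalues of Frobenius, in every degree
-/

set_option autoImplicit false
set_option linter.unusedSectionVars false

namespace Q282GS

open Finset
open Q282GP (kun coh oser oc kun_sum oc_mid)

/-- the coefficient of the `k`-th power of the trace in the middle degree, on the cohomology in degree `j` of the power `ν` -/
noncomputable def co (w : ℕ → ℕ) (D r ν j k : ℕ) : ℕ :=
  ν.choose k * (if D * k ≤ j then PowerSeries.coeff (j - D * k) (oser w D r ^ (ν - k)) else 0)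

/-- **The trace of Frobenius on the cohomology of a power.** -/
theorem trace_gen (w : ℕ → ℕ) (D r q : ℕ) (α : Multiset ℂ) (u τ : ℂ) (hq : (q : ℂ) = u ^ 2) (hα : α.sum = (-1) ^ D * (τ * u ^ D)) (ν j : ℕ) :
    (kun (coh w D r q α) ν j).sum = (-u) ^ j * ∑ k ∈ range (ν + 1), (co w D r ν j k : ℂ) * τ ^ k := by
  obtain ⟨S, hS⟩ : ∃ S : PowerSeries ℂ, S = PowerSeries.C τ * PowerSeries.X ^ D + PowerSeries.map (Nat.castRingHom ℂ) (oser w D r) := ⟨_, rfl⟩
  have h1 : (PowerSeries.mk fun b => (coh w D r q α b).sum) = PowerSeries.rescale (-u) S := by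
    ext b
    rw [PowerSeries.coeff_mk, PowerSeries.coeff_rescale, hS, map_add, PowerSeries.coeff_C_mul, PowerSeries.coeff_X_pow,
      PowerSeries.coeff_map]
    unfold coh oser
    rw [PowerSeries.coeff_mk]
    by_cases hb : b = D
    · rw [if_pos hb, if_pos hb, hb, hα]
      have h2 : (if Even D then oc w D r (D / 2) else 0) = 0 := by
        split_ifs with hD
        · exact oc_mid w D r hD
        · rfl
      rw [h2, map_zero, neg_pow]
      ring
    · rw [if_neg hb, if_neg hb, mul_zero, zero_add]
      split_ifs with hev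
      · rw [Multiset.sum_replicate, nsmul_eq_mul, hq, ← pow_mul, Nat.coe_castRingHom, hev.neg_pow]
        obtain ⟨m, hm⟩ := hev
        rw [show 2 * (b / 2) = b by omega]
        ring
      · rw [map_zero, mul_zero, Multiset.sum_zero]
  rw [kun_sum, h1, ← map_pow, PowerSeries.coeff_rescale]
  congr 1
  rw [hS, add_pow, map_sum]
  refine sum_congr rfl fun k _ => ?_
  have h2 : (PowerSeries.C τ * PowerSeries.X ^ D) ^ k * (PowerSeries.map (Nat.castRingHom ℂ) (oser w D r)) ^ (ν - k) * ((ν.choose k : ℕ) : PowerSeries ℂ) =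
      PowerSeries.C (τ ^ k * (ν.choose k : ℂ)) * (PowerSeries.X ^ (D * k) * PowerSeries.map (Nat.castRingHom ℂ) (oser w D r ^ (ν - k))) := by
    rw [map_mul, map_pow, map_pow, mul_pow, map_natCast, ← pow_mul]
    ring
  rw [h2, PowerSeries.coeff_C_mul, PowerSeries.coeff_X_pow_mul']
  unfold co
  split_ifs with h
  · rw [PowerSeries.coeff_map, Nat.coe_castRingHom]
    push_cast
    ring
  · simp

lemma oser_odd (w : ℕ → ℕ) (D r m j : ℕ) (hj : Odd j) : PowerSeries.coeff j (oser w D r ^ m) = 0 := by
  induction m generalizing j with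
  | zero =>
    rw [pow_zero, PowerSeries.coeff_one, if_neg]
    rintro rfl
    simp at hj
  | succ m ih =>
    rw [pow_succ', PowerSeries.coeff_mul]
    refine sum_eq_zero fun x hx => ?_
    rw [HasAntidiagonal.mem_antidiagonal] at hx
    rcases Nat.even_or_odd x.1 with h | h
    · have h2 : Odd x.2 := by
        rcases Nat.even_or_odd x.2 with h3 | h3
        · exfalso
          rw [← hx] at hj
          exact (Nat.not_odd_iff_even.2 (h.add h3)) hj
        · exact h3
      rw [ih _ h2, mul_zero]
    · unfold oser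
      rw [PowerSeries.coeff_mk, if_neg (Nat.not_even_iff_odd.2 h), zero_mul]

/-- in odd degrees only odd powers of the trace occur -/
lemma co_even (w : ℕ → ℕ) (D r ν j k : ℕ) (hj : Odd j) (hk : Even k) : co w D r ν j k = 0 := by
  unfold co
  split_ifs with h
  · rw [oser_odd, mul_zero]
    obtain ⟨m, hm⟩ := hj
    obtain ⟨l, hl⟩ := hk
    have h1 : D * k = 2 * (D * l) := by
      rw [hl]
      ring
    exact ⟨m - D * l, by omega⟩
  · rw [mul_zero]

end Q282GS
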